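import Pool.Agent.helper71.CL.Spec

/-!
# cl:MAE: a completion (Maehara)
-/

set_option autoImplicit false

open MeasureTheory Set Filter Topology
open scoped ENNReal
open Pool.Agent.helper81.CW

noncomputable section

namespace Pool.Agent.CL

theorem MAE_supp {n : ℕ} (C : Set (E n)) (u y : E n) (hy : y ∈ C)
    (h : ∀ x ∈ C, (inner ℝ u x : ℝ) ≤ inner ℝ u y) : supp C u = inner ℝ u y := by
  have hg : IsGreatest ((fun x => (inner ℝ u x : ℝ)) '' C) (inner ℝ u y) := by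
    refine ⟨⟨y, hy, rfl⟩, ?_⟩
    rintro _ ⟨x, hx, rfl⟩
    exact h x hx
  exact hg.csSup_eq

theorem MAE_max {n : ℕ} (C : Set (E n)) (hC : IsCompact C) (hne : C.Nonempty) (u : E n) :
    ∃ y ∈ C, ∀ x ∈ C, (inner ℝ u x : ℝ) ≤ inner ℝ u y := by
  obtain ⟨y, hy, hmax⟩ := hC.exists_isMaxOn hne
    (f := fun x : E n => (inner ℝ u x : ℝ)) (continuous_const.inner continuous_id).continuousOn
  exact ⟨y, hy, fun x hx => hmax hx⟩

theorem MAE_ball {n : ℕ} (K : Set (E n)) (hK : K.Nonempty) :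
    IsCompact {w : E n | ∀ k ∈ K, ‖w - k‖ ≤ 1} ∧ Convex ℝ {w : E n | ∀ k ∈ K, ‖w - k‖ ≤ 1} := by
  have he : {w : E n | ∀ k ∈ K, ‖w - k‖ ≤ 1} = ⋂ k ∈ K, Metric.closedBall k 1 := by
    ext w
    simp only [mem_ofPred_eq, mem_iInter, Metric.mem_closedBall, dist_eq_norm]
  rw [he]
  obtain ⟨k, hk⟩ := hK
  constructor
  · refine IsCompact.of_isClosed_subset (isCompact_closedBall k 1) ?_ (biInter_subset_of_mem hk)
    exact isClosed_biInter fun k _ => Metric.isClosed_closedBall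
  · exact convex_iInter₂ fun k _ => convex_closedBall k 1

theorem MAE (hNCN : NCN_stmt) : MAE_stmt := by
  intro n K hK hKne hdiam
  set W : Set (E n) := {w : E n | ∀ k ∈ K, ‖w - k‖ ≤ 1} with hW
  set T : Set (E n) := {x : E n | ∀ w ∈ W, ‖x - w‖ ≤ 1} with hT
  obtain ⟨hWc, hWv⟩ := MAE_ball K hKne
  have hKW : K ⊆ W := fun k hk k' hk' => hdiam k hk k' hk'
  have hWne : W.Nonempty := hKne.mono hKW
  obtain ⟨hTc, hTv⟩ := MAE_ball W hWne
  have hKT : K ⊆ T := fun k hk w hw => by rw [norm_sub_rev]; exact hw k hk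
  have hTne : T.Nonempty := hKne.mono hKT
  have hTW : T ⊆ W := fun x hx k hk => hx k (hKW hk)
  -- the key identity
  have key : ∀ u : E n, ‖u‖ = 1 → ∀ y ∈ W, (∀ x ∈ W, (inner ℝ u x : ℝ) ≤ inner ℝ u y) →
      ∀ z ∈ T, (∀ x ∈ T, (inner ℝ (-u) x : ℝ) ≤ inner ℝ (-u) z) →
      (inner ℝ u y : ℝ) + inner ℝ (-u) z = 1 := by
    intro u hu y hy hym z hz hzm
    apply le_antisymm
    · have h1 : (inner ℝ u y : ℝ) + inner ℝ (-u) z = inner ℝ u (y - z) := by
        rw [inner_neg_left, inner_sub_right]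
        ring
      rw [h1]
      calc (inner ℝ u (y - z) : ℝ) ≤ ‖u‖ * ‖y - z‖ := real_inner_le_norm _ _
        _ ≤ 1 := by
          rw [hu, one_mul, norm_sub_rev]
          exact hz y hy
    · have h2 : y - u ∈ T := by
        intro w hw
        exact hNCN n K u y hK hu hy (fun w hw => hym w hw) w hw
      have h3 := hzm _ h2
      have h4 : (inner ℝ (-u) (y - u) : ℝ) = - inner ℝ u y + 1 := by
        rw [inner_neg_left, inner_sub_right, real_inner_self_eq_norm_sq, hu]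
        ring
      rw [h4] at h3
      linarith
  set C : Set (E n) := (fun p : E n × E n => (1 / 2 : ℝ) • (p.1 + p.2)) '' (W ×ˢ T) with hC
  have hsupp : ∀ u : E n, ∀ y ∈ W, (∀ x ∈ W, (inner ℝ u x : ℝ) ≤ inner ℝ u y) →
      ∀ z ∈ T, (∀ x ∈ T, (inner ℝ u x : ℝ) ≤ inner ℝ u z) →
      supp C u = (inner ℝ u y + inner ℝ u z) / 2 := by
    intro u y hy hym z hz hzm
    rw [MAE_supp C u ((1 / 2 : ℝ) • (y + z)) ⟨(y, z), ⟨hy, hz⟩, rfl⟩ ?_]
    · rw [inner_smul_right, inner_add_right]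
      ring
    · rintro _ ⟨⟨w, t⟩, ⟨hw, ht⟩, rfl⟩
      simp only [inner_smul_right, inner_add_right]
      have h1 := hym w hw
      have h2 := hzm t ht
      linarith
  refine ⟨C, ⟨?_, ?_, ?_, one_pos, ?_⟩, ?_, ?_⟩
  · exact (hWne.prod hTne).image _
  · exact (hWc.prod hTc).image (by fun_prop)
  · rintro _ ⟨⟨w, t⟩, ⟨hw, ht⟩, rfl⟩ _ ⟨⟨w', t'⟩, ⟨hw', ht'⟩, rfl⟩ a b ha hb hab
    refine ⟨(a • w + b • w', a • t + b • t'), ⟨hWv hw hw' ha hb hab, hTv ht ht' ha hb hab⟩, ?_⟩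
    simp only [smul_add, smul_smul]
    rw [mul_comm (1 / 2 : ℝ) a, mul_comm (1 / 2 : ℝ) b]
    abel
  · intro u hu
    obtain ⟨y, hy, hym⟩ := MAE_max W hWc hWne u
    obtain ⟨z, hz, hzm⟩ := MAE_max T hTc hTne u
    obtain ⟨y', hy', hym'⟩ := MAE_max W hWc hWne (-u)
    obtain ⟨z', hz', hzm'⟩ := MAE_max T hTc hTne (-u)
    rw [hsupp u y hy hym z hz hzm, hsupp (-u) y' hy' hym' z' hz' hzm']
    have h1 := key u hu y hy hym z' hz' hzm'
    have h2 := key (-u) (by rwa [norm_neg]) y' hy' hym' z hz (by rw [neg_neg]; exact hzm)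
    rw [neg_neg] at h2
    linarith
  · intro k hk
    refine ⟨(k, k), ⟨hKW hk, hKT hk⟩, ?_⟩
    simp only
    rw [← two_smul ℝ k, smul_smul]
    norm_num
  · rintro _ ⟨⟨w, t⟩, ⟨hw, ht⟩, rfl⟩ k hk
    have h1 : (1 / 2 : ℝ) • (w + t) - k = (1 / 2 : ℝ) • ((w - k) + (t - k)) := by
      have h2 : k = (1 / 2 : ℝ) • (k + k) := by
        rw [← two_smul ℝ k, smul_smul]
        norm_num
      nth_rewrite 1 [h2]
      rw [← smul_sub]
      congr 1
      abel
    show ‖(1 / 2 : ℝ) • (w + t) - k‖ ≤ 1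
    rw [h1, norm_smul]
    have h3 := norm_add_le (w - k) (t - k)
    have h4 := hw k hk
    have h5 := hTW ht k hk
    have h6 : ‖(1 / 2 : ℝ)‖ = 1 / 2 := by norm_num
    rw [h6]
    linarith

end Pool.Agent.CL
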