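import Pool.Agent.helper47.CL.SpecC

/-! Project CL, row YG: the case `n = 2 k`, assembly of the cases. -/

set_option autoImplicit false

namespace Pool.Agent.helper41.CL

open Finset

theorem YG_two {β : Type} [DecidableEq β] (s : Finset β) (u v : β) (hs : #s ≤ 2) (hu : u ∈ s)
    (hv : v ∈ s) (huv : u ≠ v) : ∀ w ∈ s, w = u ∨ w = v := by
  have hsub : ({u, v} : Finset β) ⊆ s := by
    intro w hw
    rcases mem_insert.1 hw with h | h
    · rw [h]; exact hu
    · rw [mem_singleton.1 h]; exact hv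
  have hcard : #s ≤ #({u, v} : Finset β) := by rw [card_pair huv]; exact hs
  have he := eq_of_subset_of_card_le hsub hcard
  intro w hw
  rw [← he] at hw
  rcases mem_insert.1 hw with h | h
  · exact Or.inl h
  · exact Or.inr (mem_singleton.1 h)

theorem YG_pair {α : Type} [DecidableEq α] (e : Finset α) (p x : α) (he : #e = 2) (hp : p ∈ e)
    (hx : x ∈ e) (hpx : p ≠ x) : e = {p, x} := by
  ext w
  constructor
  · intro hw
    rcases YG_two e p x he.le hp hx hpx w hw with h | h
    · rw [h]; exact mem_insert_self _ _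
    · rw [h]; exact mem_insert_of_mem (mem_singleton_self _)
  · intro hw
    rcases mem_insert.1 hw with h | h
    · rw [h]; exact hp
    · rw [mem_singleton.1 h]; exact hx

theorem YG_other {α : Type} [DecidableEq α] (e : Finset α) (p : α) (he : #e = 2) (hp : p ∈ e) :
    ∃ x, x ≠ p ∧ x ∈ e ∧ e = {p, x} := by
  have h1 : 0 < #(e.erase p) := by rw [card_erase_of_mem hp]; omega
  obtain ⟨x, hx⟩ := card_pos.1 h1
  have h2 := mem_erase.1 hx
  exact ⟨x, h2.1, h2.2, YG_pair e p x he hp h2.2 (Ne.symm h2.1)⟩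

theorem YG_case1 (h1 : AZ_stmt) (h2 : SP_stmt) (α : Type) [DecidableEq α] (V : Finset α)
    (E : Finset (Finset α)) (c : ℕ) (hGr : Gr V E) (hc : 3 ≤ c) (hE : #E = c + 2) (hV : #V = 2 * c)
    (p : α) (hp : 3 ≤ #(inc E p)) : 2 ^ (c - 1) ≤ #(cov V E c) := by
  obtain ⟨e0, he0⟩ : (inc E p).Nonempty := card_pos.1 (by omega)
  have he0' := mem_filter.1 he0
  have hpV : p ∈ V := (hGr e0 he0'.1).1 he0'.2
  have hsp := h2 α V E p (c - 1) hpV
  rw [show c - 1 + 1 = c by omega] at hsp
  have hcount : #(inc E p) + #(E.filter fun e => p ∉ e) = #E := by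
    unfold inc
    exact card_filter_add_card_filter_not (s := E) (fun e => p ∈ e)
  have haz := h1 α (V.erase p) (E.filter fun e => p ∉ e) (c - 1) (by
      intro e he
      have he' := mem_filter.1 he
      refine ⟨?_, (hGr e he'.1).2⟩
      intro x hx
      rw [mem_erase]
      refine ⟨?_, (hGr e he'.1).1 hx⟩
      rintro rfl
      exact he'.2 hx) (by omega) (by rw [card_erase_of_mem hpV]; omega)
  omega

theorem YG (h1 : AZ_stmt) (h2 : SP_stmt) (h3 : SD_stmt) (h4 : YX_stmt) (h5 : YE_stmt) (h6 : YF_stmt) : YG_stmt := by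
  intro α _ V E c hGr hc hE hV hcov
  by_cases hdeg : ∃ p, 3 ≤ #(inc E p)
  · obtain ⟨p, hp⟩ := hdeg
    exact YG_case1 h1 h2 α V E c hGr hc hE hV p hp
  have hd2 : ∀ v, #(inc E v) ≤ 2 := by
    intro v
    by_contra hcon
    exact hdeg ⟨v, by omega⟩
  have hinc : ∀ (v : α) (e : Finset α), e ∈ inc E v ↔ e ∈ E ∧ v ∈ e := by
    intro v e
    exact mem_filter
  by_cases hyf : ∀ e ∈ E, ∀ p ∈ e, ∀ x ∈ e, p ≠ x → #(inc E p) = 2 → #(inc E x) = 1
  · exact h6 α V E c hGr hc hE hV hd2 hyf
  push Not at hyf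
  obtain ⟨e, heE, p, hpe, a, hae, hpa, hdp, hda⟩ := hyf
  have hdege : ∀ (v : α) (e : Finset α), e ∈ E → v ∈ e → 1 ≤ #(inc E v) := by
    intro v e h h'
    exact card_pos.2 ⟨e, (hinc v e).2 ⟨h, h'⟩⟩
  have hda2 : #(inc E a) = 2 := by
    have := hdege a e heE hae
    have := hd2 a
    omega
  have hepa : e = {p, a} := YG_pair e p a (hGr e heE).2 hpe hae hpa
  subst hepa
  -- the other neighbour of `p`
  obtain ⟨e', he'⟩ : ((inc E p).erase {p, a}).Nonempty := by
    apply card_pos.1
    rw [card_erase_of_mem ((hinc _ _).2 ⟨heE, hpe⟩)]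
    omega
  have he'1 := mem_erase.1 he'
  have he'2 := (hinc _ _).1 he'1.2
  obtain ⟨b, hbp, hbe', hb⟩ := YG_other e' p (hGr e' he'2.1).2 he'2.2
  subst hb
  have hab : a ≠ b := by
    rintro rfl
    exact he'1.1 rfl
  have hpe'E : ({p, b} : Finset α) ∈ E := he'2.1
  have hpbne : ({p, a} : Finset α) ≠ {p, b} := Ne.symm he'1.1
  have honly : ∀ e ∈ E, p ∈ e → e = {p, a} ∨ e = {p, b} := by
    intro e he hp
    exact YG_two (inc E p) {p, a} {p, b} (hd2 p) ((hinc _ _).2 ⟨heE, hpe⟩)
      ((hinc _ _).2 ⟨hpe'E, he'2.2⟩) hpbne e ((hinc _ _).2 ⟨he, hp⟩)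
  -- the other member at `a`
  obtain ⟨f, hf⟩ : ((inc E a).erase {p, a}).Nonempty := by
    apply card_pos.1
    rw [card_erase_of_mem ((hinc _ _).2 ⟨heE, hae⟩)]
    omega
  have hf1 := mem_erase.1 hf
  have hf2 := (hinc _ _).1 hf1.2
  have hpf : p ∉ f := by
    intro hpf
    exact hf1.1 (YG_pair f p a (hGr f hf2.1).2 hpf hf2.2 hpa)
  have hYE := h5 α V E c p a b hGr hc hE hV heE hpe'E hpa (Ne.symm hbp) hab honly
  have hE0a : (E.filter fun e => p ∉ e ∧ a ∉ e ∧ b ∉ e) ⊆ ((E.erase {p, a}).erase {p, b}).erase f := by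
    intro g hg
    have hg' := mem_filter.1 hg
    rw [mem_erase, mem_erase, mem_erase]
    refine ⟨?_, ?_, ?_, hg'.1⟩
    · rintro rfl
      exact hg'.2.2.1 hf2.2
    · rintro rfl
      exact hg'.2.1 he'2.2
    · rintro rfl
      exact hg'.2.1 hpe
  have hmem2 : ({p, b} : Finset α) ∈ E.erase {p, a} := mem_erase.2 ⟨he'1.1, hpe'E⟩
  have hfne1 : f ≠ {p, b} := by
    rintro rfl
    exact hpf he'2.2
  have hmem3 : f ∈ (E.erase {p, a}).erase {p, b} := mem_erase.2 ⟨hfne1, mem_erase.2 ⟨hf1.1, hf2.1⟩⟩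
  have hcard3 : #(((E.erase {p, a}).erase {p, b}).erase f) = c - 1 := by
    rw [card_erase_of_mem hmem3, card_erase_of_mem hmem2, card_erase_of_mem heE, hE]
    omega
  by_cases hiso : ∃ y ∈ V, y ≠ p ∧ ∀ e ∈ E, p ∉ e → y ∉ e
  · exact hYE.2 (by rw [← hcard3]; exact card_le_card hE0a) hiso
  push Not at hiso
  have hbV : b ∈ V := (hGr _ hpe'E).1 hbe'
  have hpV : p ∈ V := (hGr _ heE).1 hpe
  have haV : a ∈ V := (hGr _ heE).1 hae
  obtain ⟨g, hgE, hpg, hbg⟩ := hiso b hbV hbp
  by_cases hgf : g = f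
  swap
  · apply hYE.1
    have hmem4 : g ∈ ((E.erase {p, a}).erase {p, b}).erase f := by
      rw [mem_erase, mem_erase, mem_erase]
      refine ⟨hgf, ?_, ?_, hgE⟩
      · rintro rfl
        exact hpg he'2.2
      · rintro rfl
        exact hpg hpe
    have hsub : (E.filter fun e => p ∉ e ∧ a ∉ e ∧ b ∉ e) ⊆
        (((E.erase {p, a}).erase {p, b}).erase f).erase g := by
      intro w hw
      rw [mem_erase]
      refine ⟨?_, hE0a hw⟩
      rintro rfl
      exact (mem_filter.1 hw).2.2.2 hbg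
    have hle := card_le_card hsub
    rw [card_erase_of_mem hmem4, hcard3] at hle
    omega
  subst hgf
  have hfab : g = {a, b} := YG_pair g a b (hGr g hgE).2 hf2.2 hbg hab
  subst hfab
  exfalso
  -- degrees
  have hdeg1 : ∀ v ∈ V, 1 ≤ #(inc E v) := by
    intro v hv
    by_cases hvp : v = p
    · rw [hvp]; omega
    · obtain ⟨w, hwE, -, hvw⟩ := hiso v hv hvp
      exact hdege v w hwE hvw
  have hpabne : ({p, b} : Finset α) ≠ {a, b} := Ne.symm hfne1
  have hdb : #(inc E b) = 2 := by
    have hs : ({{p, b}, {a, b}} : Finset (Finset α)) ⊆ inc E b := by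
      intro w hw
      rcases mem_insert.1 hw with h | h
      · rw [h]; exact (hinc _ _).2 ⟨hpe'E, hbe'⟩
      · rw [mem_singleton.1 h]; exact (hinc _ _).2 ⟨hgE, hbg⟩
    have := card_le_card hs
    rw [card_pair hpabne] at this
    have := hd2 b
    omega
  have hsum := h3 α V E hGr
  have hW : #(V.filter fun v => #(inc E v) = 2) = 4 := by
    have e1 : ∑ x ∈ V, #(inc E x) = ∑ x ∈ V, (1 + if #(inc E x) = 2 then 1 else 0) := by
      apply sum_congr rfl
      intro x hx
      have h7 := hdeg1 x hx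
      have h8 := hd2 x
      by_cases h9 : #(inc E x) = 2
      · rw [if_pos h9, h9]
      · rw [if_neg h9]; omega
    rw [sum_add_distrib, ← card_eq_sum_ones, ← card_filter] at e1
    omega
  have hpab : ({p, a, b} : Finset α) ⊆ V.filter fun v => #(inc E v) = 2 := by
    intro w hw
    rw [mem_filter]
    rw [mem_insert, mem_insert, mem_singleton] at hw
    rcases hw with h | h | h
    · rw [h]; exact ⟨hpV, hdp⟩
    · rw [h]; exact ⟨haV, hda2⟩
    · rw [h]; exact ⟨hbV, hdb⟩
  have hc3 : #({p, a, b} : Finset α) = 3 := by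
    rw [card_insert_of_notMem, card_pair hab]
    rw [mem_insert, mem_singleton]
    rintro (h | h)
    · exact hpa h
    · exact hbp h.symm
  have hdiff : #((V.filter fun v => #(inc E v) = 2) \ {p, a, b}) = 1 := by
    rw [card_sdiff_of_subset hpab, hW, hc3]
  obtain ⟨q, hq⟩ := card_eq_one.1 hdiff
  have hqm : q ∈ (V.filter fun v => #(inc E v) = 2) \ {p, a, b} := by
    rw [hq]; exact mem_singleton_self _
  have hqm1 := mem_sdiff.1 hqm
  have hqm2 := mem_filter.1 hqm1.1
  have hqnot := hqm1.2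
  have hrest : ∀ v, v ∉ ({p, a, b, q} : Finset α) → #(inc E v) ≤ 1 := by
    intro v hv
    by_contra hcon
    have h7 : #(inc E v) = 2 := by have := hd2 v; omega
    obtain ⟨w, hw⟩ : (inc E v).Nonempty := card_pos.1 (by omega)
    have hw' := (hinc _ _).1 hw
    have hvV : v ∈ V := (hGr w hw'.1).1 hw'.2
    rw [mem_insert, mem_insert, mem_insert, mem_singleton] at hv
    push Not at hv
    have : v ∈ (V.filter fun v => #(inc E v) = 2) \ {p, a, b} := by
      rw [mem_sdiff, mem_filter, mem_insert, mem_insert, mem_singleton]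
      refine ⟨⟨hvV, h7⟩, ?_⟩
      rintro (h | h | h)
      · exact hv.1 h
      · exact hv.2.1 h
      · exact hv.2.2.1 h
    rw [hq, mem_singleton] at this
    exact hv.2.2.2 this
  -- the member of `E` at `q`
  obtain ⟨r, hr⟩ : (inc E q).Nonempty := card_pos.1 (by omega)
  have hr' := (hinc _ _).1 hr
  obtain ⟨x, hxq, hxr, hrx⟩ := YG_other r q (hGr r hr'.1).2 hr'.2
  have hqp : q ≠ p := by
    rintro rfl
    exact hqnot (mem_insert_self _ _)
  have hqa : q ≠ a := by
    rintro rfl
    exact hqnot (mem_insert_of_mem (mem_insert_self _ _))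
  have hqb : q ≠ b := by
    rintro rfl
    exact hqnot (mem_insert_of_mem (mem_insert_of_mem (mem_singleton_self _)))
  have hxnot : x ∉ ({p, a, b} : Finset α) := by
    rw [mem_insert, mem_insert, mem_singleton]
    rintro (h | h | h)
    · -- x = p
      subst h
      rcases honly r hr'.1 hxr with h | h
      · have := hr'.2
        rw [h, mem_insert, mem_singleton] at this
        rcases this with h | h
        · exact hqp h
        · exact hqa h
      · have := hr'.2
        rw [h, mem_insert, mem_singleton] at this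
        rcases this with h | h
        · exact hqp h
        · exact hqb h
    · -- x = a
      subst h
      rcases YG_two (inc E x) {p, x} {x, b} (hd2 x) ((hinc _ _).2 ⟨heE, hae⟩)
        ((hinc _ _).2 ⟨hgE, hf2.2⟩) (Ne.symm hf1.1) r ((hinc _ _).2 ⟨hr'.1, hxr⟩) with h | h
      · have := hr'.2
        rw [h, mem_insert, mem_singleton] at this
        rcases this with h | h
        · exact hqp h
        · exact hqa h
      · have := hr'.2
        rw [h, mem_insert, mem_singleton] at this
        rcases this with h | h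
        · exact hqa h
        · exact hqb h
    · -- x = b
      subst h
      rcases YG_two (inc E x) {p, x} {a, x} (hd2 x) ((hinc _ _).2 ⟨hpe'E, hbe'⟩)
        ((hinc _ _).2 ⟨hgE, hbg⟩) hpabne r ((hinc _ _).2 ⟨hr'.1, hxr⟩) with h | h
      · have := hr'.2
        rw [h, mem_insert, mem_singleton] at this
        rcases this with h | h
        · exact hqp h
        · exact hqb h
      · have := hr'.2
        rw [h, mem_insert, mem_singleton] at this
        rcases this with h | h
        · exact hqa h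
        · exact hqb h
  have hxV : x ∈ V := (hGr r hr'.1).1 hxr
  have hqxE : ({q, x} : Finset α) ∈ E := by
    rw [← hrx]; exact hr'.1
  obtain ⟨C, hC, hxC⟩ := hcov x hxV
  exact h4 α V E c p a b q x hGr hE heE hpe'E hgE hqxE hpa (Ne.symm hbp) hab (Ne.symm hxq) hqnot
    hxnot hd2 hrest C hC hxC

end Pool.Agent.helper41.CL
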