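import Pool.Agent.helper47.CL.SpecD

/-! Project CL, row RA: the induction step for `SA`. -/

set_option autoImplicit false

namespace Pool.Agent.helper41.CL

open Finset

theorem RA_leaf (h4 : ZL_stmt) (N : ℕ) (hSB : SB N) (α : Type) [DecidableEq α] (V : Finset α)
    (E : Finset (Finset α)) (q r : ℕ) (hGr : Gr V E) (hV : #V = 2 * (q + 1) + r) (hVN : #V ≤ N + 1)
    (hrq : r ≤ q + 1) (hE : #E + 1 ≤ (q + 1) + 2 * r) (x a : α) (hL : Lf E x a) :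
    3 ^ r * 2 ^ (q + 1) ≤ 3 * 2 ^ r * #(ind V E (q + 1 + 1)) := by
  obtain ⟨g1, -, g3, -, g5, -, g7⟩ := h4 α V E x a hGr hL
  have h := hSB α (V \ {x, a}) (av E {x, a}) q r g1 (by omega) (by omega) (by omega) (by omega)
  have h' := g7 (q + 1)
  have h1 : 3 * 2 ^ r * #(ind (V \ {x, a}) (av E {x, a}) (q + 1)) ≤ 3 * 2 ^ r * #(ind V E (q + 1 + 1)) :=
    Nat.mul_le_mul_left _ (by omega)
  rw [pow_succ]
  calc 3 ^ r * (2 ^ q * 2) = 2 * 3 ^ r * 2 ^ q := by ring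
    _ ≤ _ := h
    _ ≤ _ := h1

theorem RA_deg3 (h7 : ZP_stmt) (N : ℕ) (hSB : SB N) (α : Type) [DecidableEq α] (V : Finset α)
    (E : Finset (Finset α)) (q r : ℕ) (hGr : Gr V E) (hV : #V = 2 * q + (r + 1)) (hVN : #V ≤ N + 1)
    (hrq : r + 1 ≤ q) (hE : #E + 1 ≤ q + 2 * (r + 1)) (p : α) (hp : 3 ≤ #(inc E p)) :
    3 ^ (r + 1) * 2 ^ q ≤ 3 * 2 ^ (r + 1) * #(ind V E (q + 1)) := by
  obtain ⟨e0, he0⟩ : (inc E p).Nonempty := card_pos.1 (by omega)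
  have he0' := mem_filter.1 he0
  have hpV : p ∈ V := (hGr e0 he0'.1).1 he0'.2
  obtain ⟨g1, g2, g3, g4⟩ := h7 α V E p hGr hpV
  have h := hSB α (V.erase p) (av E {p}) q r g1 (by omega) (by omega) (by omega) (by omega)
  have h' := g4 (q + 1)
  have h1 : 3 * 2 ^ r * #(ind (V.erase p) (av E {p}) (q + 1)) ≤ 3 * 2 ^ r * #(ind V E (q + 1)) :=
    Nat.mul_le_mul_left _ h'
  rw [pow_succ, pow_succ]
  calc 3 ^ r * 3 * 2 ^ q ≤ 2 * (2 * 3 ^ r * 2 ^ q) := by nlinarith [Nat.zero_le (3 ^ r * 2 ^ q)]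
    _ ≤ 2 * (3 * 2 ^ r * #(ind V E (q + 1))) := Nat.mul_le_mul_left _ (h.trans h1)
    _ = _ := by ring

theorem RA_two (h5 : ZW_stmt) (N : ℕ) (hSA : SA N) (α : Type) [DecidableEq α] (V : Finset α)
    (E : Finset (Finset α)) (q r : ℕ) (hGr : Gr V E) (hV : #V = 2 * (q + 1) + (r + 1))
    (hVN : #V ≤ N + 1) (hrq : r + 1 ≤ q + 1) (hE : #E + 1 ≤ (q + 1) + 2 * (r + 1)) (p a b : α)
    (hT : Tw E p a b) (ha : 2 ≤ #(inc E a)) :
    3 ^ (r + 1) * 2 ^ (q + 1) ≤ 3 * 2 ^ (r + 1) * #(ind V E (q + 1 + 1)) := by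
  obtain ⟨g1, g2, g3, g4, g5, g6, -, g8⟩ := h5 α V E p a b hGr hT
  have g6' := g6 (Or.inl ha)
  have hA := hSA α (V \ {p, a, b}) (av E {p, a, b}) q r g1 (by omega) (by omega) (by omega) (by omega)
  have hB := hSA α (V.erase p) (av E {p}) (q + 1) r g2 (by omega) (by omega) (by omega) (by omega)
  have h' := g8 (q + 1)
  have h1 : 3 * 2 ^ r * (#(ind (V \ {p, a, b}) (av E {p, a, b}) (q + 1)) +
      #(ind (V.erase p) (av E {p}) (q + 1 + 1))) ≤ 3 * 2 ^ r * #(ind V E (q + 1 + 1)) :=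
    Nat.mul_le_mul_left _ h'
  rw [mul_add] at h1
  have h2 : 3 ^ r * 2 ^ q + 3 ^ r * 2 ^ (q + 1) ≤ 3 * 2 ^ r * #(ind V E (q + 1 + 1)) :=
    (add_le_add hA hB).trans h1
  calc 3 ^ (r + 1) * 2 ^ (q + 1) = 2 * (3 ^ r * 2 ^ q + 3 ^ r * 2 ^ (q + 1)) := by
        rw [pow_succ, pow_succ]; ring
    _ ≤ 2 * (3 * 2 ^ r * #(ind V E (q + 1 + 1))) := Nat.mul_le_mul_left _ h2
    _ = _ := by rw [pow_succ]; ring

theorem RA (h2 : ZR_stmt) (h4 : ZL_stmt) (h5 : ZW_stmt) (h6 : ZI_stmt) (h7 : ZP_stmt) (h8 : ZS_stmt) (h9 : SD_stmt) : RA_stmt := by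
  intro N hSA hSB hSB' α _ V E q r hGr hV hVN hrq hE
  by_cases hE2 : #E + 2 ≤ q + 2 * r
  · have h := hSB' α V E q r hGr hV hVN (by omega) hE2
    calc 3 ^ r * 2 ^ q ≤ 2 * 3 ^ r * 2 ^ q := by nlinarith [Nat.zero_le (3 ^ r * 2 ^ q)]
      _ ≤ _ := h
  rcases Nat.eq_zero_or_pos r with hr | hr
  · subst hr
    have h := (h2 α V E q hGr (by omega)).2.2 (by omega)
    rw [pow_zero, pow_zero, one_mul, mul_one]
    exact h
  obtain ⟨r, rfl⟩ : ∃ r', r = r' + 1 := ⟨r - 1, by omega⟩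
  obtain ⟨q, rfl⟩ : ∃ q', q = q' + 1 := ⟨q - 1, by omega⟩
  by_cases hL : ∃ x a, Lf E x a
  · obtain ⟨x, a, hL⟩ := hL
    exact RA_leaf h4 N hSB α V E q (r + 1) hGr hV hVN hrq hE x a hL
  rcases h8 α V E hGr with h | ⟨⟨y, hy, hiso⟩, a, ha⟩ | ⟨p, a, b, hT, ha, -⟩ | h | h
  · exact absurd h hL
  · obtain ⟨E', g1, g2, ⟨x, b, g3⟩, g4⟩ := h6 α V E a y hGr hy hiso ha hL
    have h := RA_leaf h4 N hSB α V E' q (r + 1) g1 hV hVN hrq (by omega) x b g3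
    exact h.trans (Nat.mul_le_mul_left _ (g4 _))
  · exact RA_two h5 N hSA α V E q r hGr hV hVN hrq hE p a b hT ha
  · exfalso
    have hs := h9 α V E hGr
    have hs' : ∑ x ∈ V, #(inc E x) ≤ #V := by
      calc ∑ x ∈ V, #(inc E x) ≤ ∑ x ∈ V, 1 := sum_le_sum fun x _ => h x
        _ = #V := by rw [sum_const, smul_eq_mul, mul_one]
    omega
  · obtain ⟨p, hp⟩ := h.1
    exact RA_deg3 h7 N hSB α V E (q + 1) r hGr hV hVN hrq hE p hp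

end Pool.Agent.helper41.CL
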